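import Pool.Agent.Q220.RCC.Comp

/-!
# All extensions of `PWRCC-Bound` by (Con), (Ext), (Nor) are decidable

Terms, formulas, the axioms (`Ax S`) and the theorems (`Prov lit S`) are defined in
`Pool.Agent.Q220.RCC.Defs`. Here `S` is any set of options among (Con), (Ext), (Nor) and the axiom
`0 ≠ 1`; for `lit = false` the rule `BOUND-2` is read in the intended way (from
`α ⇒ ¬ (B(p) ∧ a ≪ p)` infer `α ⇒ ¬ B(a)`), for `lit = true` it is taken as printed.

A frame has cells, a reflexive and symmetric contact relation on the cells, and a set of bounded
cells; a region is any set of cells, two regions are in contact if they contain cells in contact, a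
region is bounded if all its cells are. Theorems are the formulas valid in all finite frames
(connected ones, if (Con) is present): the rules are sound because suitable cells can be split
into two cells, which does not change the truth of formulas without the new variable, and conversely
the nonzero minterms of an assignment which makes all axioms true form a frame.
-/

namespace Pool.Agent.Results.MP_ad6a67_lc.Decidability

open Pool.Agent.Q220.RCC

/-- 1. The Gödel numbering of formulas is a bijection onto the natural numbers, and for every set
`S` of options and both readings of `BOUND-2` the set of (numbers of) theorems is decidable.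
2. With the intended `BOUND-2`, the theorems are the formulas valid in all finite frames which are
connected if (Con) is in `S` and nonempty if `0 ≠ 1` is in `S`.
3. So the rules (Ext) and (Nor) add no theorems.
4. With `BOUND-2` as printed every formula is a theorem. -/
theorem result :
    (Function.Bijective Form.code ∧ ∀ (lit : Bool) (S : Set Opt),
      ComputablePred fun n : ℕ => ∃ φ : Form, φ.code = n ∧ Prov lit S φ) ∧
    (∀ (S : Set Opt) (φ : Form), Prov false S φ ↔
      ∀ F : Frame, Finite F.W → F.Good S → ∀ V : ℕ → Set F.W, F.sat V φ) ∧
    (∀ (S : Set Opt) (φ : Form), Prov false S φ ↔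
      Prov false {o | o ∈ S ∧ o ≠ Opt.Ext ∧ o ≠ Opt.Nor} φ) ∧
    (∀ (S : Set Opt) (φ : Form), Prov true S φ) := by
  have key : ∀ (S : Set Opt) (φ : Form), Prov false S φ ↔
      ∀ F : Frame, Finite F.W → F.Good S → ∀ V : ℕ → Set F.W, F.sat V φ := by
    intro S φ
    constructor
    · exact fun h F _ hF V => sound h F hF V
    · intro h
      by_contra hφ
      obtain ⟨w, -, b, -, c, -, hl, hno⟩ :=
        coded_complete (K := φ.code) (fun p hp => occurs_lt hp) hφ
      refine hno ?_
      rw [← coded_sat hl]
      refine h _ ?_ (coded_good b hl) _
      exact Set.Finite.to_subtype ((Set.finite_lt_nat (2 ^ φ.code)).subset fun i hi => hi.1)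
  refine ⟨⟨code_bijective, ?_⟩, key, ?_, lit_all⟩
  · intro lit S
    cases lit with
    | false =>
      obtain ⟨hd, hp⟩ := prov_primrec S
      refine ComputablePred.of_eq (p := fun n => Prov false S (formOf n))
        ⟨hd, hp.to_comp⟩ fun n => ?_
      constructor
      · exact fun h => ⟨formOf n, code_formOf n, h⟩
      · rintro ⟨φ, rfl, h⟩
        rwa [formOf_code]
    | true =>
      refine ComputablePred.of_eq (p := fun _ : ℕ => True)
        ⟨fun _ => instDecidableTrue, Computable.const _⟩ fun n => ?_
      exact ⟨fun _ => ⟨formOf n, code_formOf n, lit_all S _⟩, fun _ => trivial⟩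
  · intro S φ
    rw [key, key]
    have : ∀ F : Frame, F.Good S ↔ F.Good {o | o ∈ S ∧ o ≠ Opt.Ext ∧ o ≠ Opt.Nor} := by
      intro F
      simp [Frame.Good]
    constructor
    · exact fun h F hf hF => h F hf ((this F).mpr hF)
    · exact fun h F hf hF => h F hf ((this F).mp hF)

end Pool.Agent.Results.MP_ad6a67_lc.Decidability
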